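import Pool.Agent.J4H93.HN.Stm
import Pool.Agent.H305R2.MertensM

/-!
# Project HN, piece (ME1)
-/

set_option autoImplicit false

namespace Pool.Agent.J4H74.HN

open Finset Filter Topology Pool.Agent.J4H93.HN

theorem t_ME1 : S_ME1 := by
  obtain ⟨M, hM⟩ := Pool.Agent.H305R2.mertens_inv_tendsto
  have h30 : Tendsto (fun Y : ℕ => Y ^ 30) atTop atTop := tendsto_pow_atTop (by norm_num)
  have h29 : Tendsto (fun Y : ℕ => Y ^ 29) atTop atTop := tendsto_pow_atTop (by norm_num)
  have h1 := (hM.comp h30).sub (hM.comp h29)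
  rw [sub_self] at h1
  have h2 : Tendsto (fun Y : ℕ => R (PB Y)) atTop (𝓝 (Real.log (30 / 29))) := by
    have h3 : Tendsto (fun Y : ℕ => ((((fun N : ℕ => ∑ p ∈ (Finset.Icc 1 N).filter Nat.Prime,
        (1 : ℝ) / p - Real.log (Real.log N)) ∘ fun Y : ℕ => Y ^ 30) Y) -
        (((fun N : ℕ => ∑ p ∈ (Finset.Icc 1 N).filter Nat.Prime,
        (1 : ℝ) / p - Real.log (Real.log N)) ∘ fun Y : ℕ => Y ^ 29) Y)) + Real.log (30 / 29))
        atTop (𝓝 (0 + Real.log (30 / 29))) := h1.add_const _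
    rw [zero_add] at h3
    refine h3.congr' ?_
    filter_upwards [eventually_ge_atTop 2] with Y hY
    have hY1 : 1 ≤ Y := by omega
    simp only [Function.comp]
    have hlY : 0 < Real.log (Y : ℝ) := Real.log_pos (by exact_mod_cast (by omega : 1 < Y))
    have hs : (Finset.Icc 1 (Y ^ 30)).filter Nat.Prime =
        (Finset.Icc 1 (Y ^ 29)).filter Nat.Prime ∪ PB Y := by
      ext p
      unfold PB
      rw [Finset.mem_union, Finset.mem_filter, Finset.mem_filter, Finset.mem_filter,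
        Finset.mem_Icc, Finset.mem_Icc, Finset.mem_Ioc]
      have hle : Y ^ 29 ≤ Y ^ 30 := Nat.pow_le_pow_right hY1 (by norm_num)
      constructor
      · rintro ⟨⟨ha, hb⟩, hp⟩
        rcases le_or_gt p (Y ^ 29) with h | h
        · exact Or.inl ⟨⟨ha, h⟩, hp⟩
        · exact Or.inr ⟨⟨h, hb⟩, hp⟩
      · rintro (⟨⟨ha, hb⟩, hp⟩ | ⟨⟨ha, hb⟩, hp⟩)
        · exact ⟨⟨ha, hb.trans hle⟩, hp⟩
        · exact ⟨⟨by omega, hb⟩, hp⟩
    have hd : Disjoint ((Finset.Icc 1 (Y ^ 29)).filter Nat.Prime) (PB Y) := by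
      rw [Finset.disjoint_left]
      intro p hp hq
      unfold PB at hq
      rw [Finset.mem_filter, Finset.mem_Icc] at hp
      rw [Finset.mem_filter, Finset.mem_Ioc] at hq
      omega
    rw [hs, Finset.sum_union hd]
    unfold R
    have hl30 : Real.log ((Y ^ 30 : ℕ) : ℝ) = 30 * Real.log Y := by
      push_cast
      rw [Real.log_pow]
      norm_num
    have hl29 : Real.log ((Y ^ 29 : ℕ) : ℝ) = 29 * Real.log Y := by
      push_cast
      rw [Real.log_pow]
      norm_num
    rw [hl30, hl29, Real.log_mul (by norm_num) hlY.ne', Real.log_mul (by norm_num) hlY.ne',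
      Real.log_div (by norm_num) (by norm_num)]
    ring
  have ha : (1 / 40 : ℝ) < Real.log (30 / 29) := by
    have h3 := Real.one_sub_inv_le_log_of_pos (show (0 : ℝ) < 30 / 29 by norm_num)
    have h4 : (1 : ℝ) - (30 / 29)⁻¹ = 1 / 30 := by norm_num
    rw [h4] at h3
    linarith
  have hb : Real.log (30 / 29) < (1 / 2 : ℝ) := by
    have h3 := Real.log_le_sub_one_of_pos (show (0 : ℝ) < 30 / 29 by norm_num)
    linarith
  filter_upwards [h2.eventually (lt_mem_nhds ha), h2.eventually (gt_mem_nhds hb)] with Y h3 h4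
  exact ⟨h3.le, h4.le⟩

end Pool.Agent.J4H74.HN
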