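import Pool.Agent.J4H93.HN.Stm

/-!
# Project HN, piece (PSI)
-/

set_option autoImplicit false

namespace Pool.Agent.J4H74.HN

open Finset Filter Topology Pool.Agent.J4H93.HN

theorem up1 (x : ℝ) (hx : 0 ≤ x) (n : ℕ) :
    x ^ n / (Nat.factorial n : ℝ) ≤ (3 / 10 : ℝ) ^ n * Real.exp (10 / 3 * x) := by
  have h := Real.pow_div_factorial_le_exp (10 / 3 * x) (by positivity) n
  have h2 : x ^ n / (Nat.factorial n : ℝ) =
      (3 / 10 : ℝ) ^ n * ((10 / 3 * x) ^ n / (Nat.factorial n : ℝ)) := by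
    rw [← mul_div_assoc, ← mul_pow]
    congr 2
    ring
  rw [h2]
  exact mul_le_mul_of_nonneg_left h (by positivity)

theorem up2 (L : ℝ) (hL : 1 ≤ L) (n : ℕ) (hn : 2 * L - 2 ≤ n) :
    (3 / 5 * L) ^ n / (Nat.factorial n : ℝ) ≤
      Real.exp (-2 * Real.log (3 / 10)) * Real.exp (-((-2 - 2 * Real.log (3 / 10)) * L)) := by
  refine (up1 (3 / 5 * L) (by positivity) n).trans ?_
  have h1 : (3 / 10 : ℝ) ^ n ≤ (3 / 10 : ℝ) ^ (2 * L - 2) := by
    rw [← Real.rpow_natCast]
    exact Real.rpow_le_rpow_of_exponent_ge (by norm_num) (by norm_num) hn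
  refine (mul_le_mul_of_nonneg_right h1 (Real.exp_nonneg _)).trans (le_of_eq ?_)
  rw [Real.rpow_def_of_pos (by norm_num), ← Real.exp_add, ← Real.exp_add]
  congr 1
  ring

theorem logn : 0 < -2 - 2 * Real.log (3 / 10) := by
  have h1 : Real.log (3 / 10) = -Real.log (10 / 3) := by
    rw [← Real.log_inv]
    norm_num
  have h2 : (1 : ℝ) < Real.log (10 / 3) := by
    rw [Real.lt_log_iff_exp_lt (by norm_num)]
    have := Real.exp_one_lt_d9
    linarith
  rw [h1]
  linarith

theorem fact_le (n : ℕ) (hn : 1 ≤ n) : (Nat.factorial n : ℝ) * Real.exp n ≤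
    (n : ℝ) ^ (n + 1) * Real.exp 1 := by
  induction n, hn using Nat.le_induction with
  | base => simp
  | succ n hn ih =>
    have hn0 : (0 : ℝ) < n := by exact_mod_cast hn
    have h1 : Real.exp 1 * (n : ℝ) ^ (n + 1) ≤ ((n : ℝ) + 1) ^ (n + 1) := by
      have h2 : Real.exp (1 / ((n : ℝ) + 1)) * n ≤ (n : ℝ) + 1 := by
        have h3 := Real.add_one_le_exp (-(1 / ((n : ℝ) + 1)))
        have h4 : -(1 / ((n : ℝ) + 1)) + 1 = n / ((n : ℝ) + 1) := by
          field_simp
          ring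
        rw [h4, Real.exp_neg] at h3
        have h5 : 0 < Real.exp (1 / ((n : ℝ) + 1)) := Real.exp_pos _
        rw [div_le_iff₀ (by positivity)] at h3
        calc Real.exp (1 / ((n : ℝ) + 1)) * n
            ≤ Real.exp (1 / ((n : ℝ) + 1)) * ((Real.exp (1 / ((n : ℝ) + 1)))⁻¹ * ((n : ℝ) + 1)) :=
              mul_le_mul_of_nonneg_left h3 h5.le
          _ = (n : ℝ) + 1 := by
              rw [← mul_assoc, mul_inv_cancel₀ h5.ne', one_mul]
      have h6 := pow_le_pow_left₀ (by positivity) h2 (n + 1)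
      rw [mul_pow, ← Real.exp_nat_mul] at h6
      have h7 : ((n + 1 : ℕ) : ℝ) * (1 / ((n : ℝ) + 1)) = 1 := by
        push_cast
        field_simp
      rw [h7] at h6
      exact h6
    rw [Nat.factorial_succ]
    push_cast
    calc ((n : ℝ) + 1) * (Nat.factorial n : ℝ) * Real.exp ((n : ℝ) + 1)
        = ((n : ℝ) + 1) * ((Nat.factorial n : ℝ) * Real.exp n) * Real.exp 1 := by
          rw [Real.exp_add]
          ring
      _ ≤ ((n : ℝ) + 1) * ((n : ℝ) ^ (n + 1) * Real.exp 1) * Real.exp 1 := by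
          have h8 : (0 : ℝ) ≤ (n : ℝ) + 1 := by positivity
          exact mul_le_mul_of_nonneg_right (mul_le_mul_of_nonneg_left ih h8) (Real.exp_nonneg _)
      _ = ((n : ℝ) + 1) * (Real.exp 1 * (n : ℝ) ^ (n + 1)) * Real.exp 1 := by ring
      _ ≤ ((n : ℝ) + 1) * (((n : ℝ) + 1) ^ (n + 1)) * Real.exp 1 := by
          have h8 : (0 : ℝ) ≤ (n : ℝ) + 1 := by positivity
          exact mul_le_mul_of_nonneg_right (mul_le_mul_of_nonneg_left h1 h8) (Real.exp_nonneg _)
      _ = _ := by ring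

theorem t_PSI : S_PSI := by
  constructor
  · have hc := logn
    set c : ℝ := -2 - 2 * Real.log (3 / 10) with hcd
    set D : ℝ := Real.exp (-2 * Real.log (3 / 10)) with hD
    have hD0 : 0 < D := Real.exp_pos _
    have hlin : Tendsto (fun L : ℝ => c * L) atTop atTop := tendsto_id.const_mul_atTop hc
    have h1 : Tendsto (fun L : ℝ => (c * L) ^ 1 * Real.exp (-(c * L))) atTop (𝓝 0) :=
      (Real.tendsto_pow_mul_exp_neg_atTop_nhds_zero 1).comp hlin
    have h0 : Tendsto (fun L : ℝ => (c * L) ^ 0 * Real.exp (-(c * L))) atTop (𝓝 0) :=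
      (Real.tendsto_pow_mul_exp_neg_atTop_nhds_zero 0).comp hlin
    have h2 : Tendsto (fun L : ℝ => 16 * D * (1 / c * ((c * L) ^ 1 * Real.exp (-(c * L))) +
        (c * L) ^ 0 * Real.exp (-(c * L)))) atTop (𝓝 0) := by
      have := ((h1.const_mul (1 / c)).add h0).const_mul (16 * D)
      simpa using this
    refine squeeze_zero' ?_ ?_ h2
    · filter_upwards [eventually_ge_atTop 1] with L hL
      positivity
    · filter_upwards [eventually_ge_atTop 1] with L hL
      have hf := Nat.lt_floor_add_one (2 * L)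
      have hf1 : 1 ≤ ⌊2 * L⌋₊ := Nat.le_floor (by push_cast; linarith)
      have ha := up2 L hL (⌊2 * L⌋₊ - 1) (by
        rw [Nat.cast_sub hf1]
        push_cast
        linarith)
      have hb := up2 L hL ⌊2 * L⌋₊ (by linarith)
      have h3 : 0 ≤ L + 1 := by linarith
      calc (L + 1) * (8 * ((3 / 5 * L) ^ (⌊2 * L⌋₊ - 1) / (Nat.factorial (⌊2 * L⌋₊ - 1) : ℝ)
          + (3 / 5 * L) ^ ⌊2 * L⌋₊ / (Nat.factorial ⌊2 * L⌋₊ : ℝ)))
          ≤ (L + 1) * (8 * (D * Real.exp (-(c * L)) + D * Real.exp (-(c * L)))) := by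
            refine mul_le_mul_of_nonneg_left (mul_le_mul_of_nonneg_left (add_le_add ha hb) ?_) h3
            norm_num
        _ = _ := by
            field_simp
            ring
  · have hfl : Tendsto (fun L : ℝ => ⌊2 * L⌋₊) atTop atTop :=
      tendsto_nat_floor_atTop.comp (tendsto_id.const_mul_atTop (by norm_num : (0 : ℝ) < 2))
    have h1 : Tendsto (fun n : ℕ => (n : ℝ) ^ 1 / (12 / 10 : ℝ) ^ n) atTop (𝓝 0) :=
      tendsto_pow_const_div_const_pow_of_one_lt 1 (by norm_num)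
    have h2 : Tendsto (fun n : ℕ => (n : ℝ) ^ 1 / (12 / 10 : ℝ) ^ n) atTop (𝓝[>] 0) := by
      rw [tendsto_nhdsWithin_iff]
      refine ⟨h1, ?_⟩
      filter_upwards [eventually_ge_atTop 1] with n hn
      have : (0 : ℝ) < n := by exact_mod_cast hn
      exact Set.mem_Ioi.2 (by positivity)
    have h3 : Tendsto (fun n : ℕ => Real.exp (-1) * ((n : ℝ) ^ 1 / (12 / 10 : ℝ) ^ n)⁻¹) atTop atTop :=
      (h2.inv_tendsto_nhdsGT_zero).const_mul_atTop (Real.exp_pos _)
    refine tendsto_atTop_mono' _ ?_ (h3.comp hfl)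
    filter_upwards [eventually_ge_atTop 10] with L hL
    simp only [Function.comp]
    set n := ⌊2 * L⌋₊ with hn
    have hn1 : 1 ≤ n := Nat.le_floor (by push_cast; linarith)
    have hn0 : (0 : ℝ) < n := by exact_mod_cast hn1
    have hnL : (n : ℝ) ≤ 2 * L := Nat.floor_le (by linarith)
    have hf := fact_le n hn1
    have hfp : (0 : ℝ) < (Nat.factorial n : ℝ) := by exact_mod_cast Nat.factorial_pos n
    have he : (2.7 : ℝ) < Real.exp 1 := by
      have := Real.exp_one_gt_d9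
      linarith
    have h4 : (12 / 10 : ℝ) * n ≤ Real.exp 1 * (L - 1) := by
      nlinarith
    have h5 : (12 / 10 : ℝ) ^ n * (n : ℝ) ^ n ≤ Real.exp n * (L - 1) ^ n := by
      have := pow_le_pow_left₀ (by positivity) h4 n
      rw [mul_pow, mul_pow, ← Real.exp_nat_mul, mul_one] at this
      exact this
    rw [le_div_iff₀ hfp]
    have h6 : Real.exp (-1) * ((n : ℝ) ^ 1 / (12 / 10 : ℝ) ^ n)⁻¹ * (Nat.factorial n : ℝ) =
        (12 / 10 : ℝ) ^ n / n * Real.exp (-1) * (Nat.factorial n : ℝ) := by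
      rw [inv_div, pow_one]
      ring
    rw [h6]
    have h7 : (Nat.factorial n : ℝ) ≤ (n : ℝ) ^ (n + 1) * Real.exp 1 / Real.exp n := by
      rw [le_div_iff₀ (Real.exp_pos _)]
      exact hf
    calc (12 / 10 : ℝ) ^ n / n * Real.exp (-1) * (Nat.factorial n : ℝ)
        ≤ (12 / 10 : ℝ) ^ n / n * Real.exp (-1) * ((n : ℝ) ^ (n + 1) * Real.exp 1 / Real.exp n) :=
          mul_le_mul_of_nonneg_left h7 (by positivity)
      _ = ((12 / 10 : ℝ) ^ n * (n : ℝ) ^ n) * (Real.exp (-1) * Real.exp 1) / Real.exp n := by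
          field_simp
          ring
      _ = ((12 / 10 : ℝ) ^ n * (n : ℝ) ^ n) / Real.exp n := by
          rw [← Real.exp_add]
          simp
      _ ≤ (L - 1) ^ n := by
          rw [div_le_iff₀ (Real.exp_pos _)]
          linarith

end Pool.Agent.J4H74.HN
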